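import Pool.Agent.H25.PG.Targets

/-!
# Board pg_modules, row SC: scaling of the parts
-/

set_option autoImplicit false

open Finset

namespace Pool.Agent.H78.PG

open Pool.Agent.H55.PM Pool.Agent.H25.PG

theorem rep_dvd {A M : Set ℕ} {b n : ℕ} {r : ℕ →₀ ℕ}
    (h : Rep {c | ∃ a ∈ A, c = b * a} M n r) : b ∣ n := by
  rw [← h.2]
  refine Finset.dvd_sum fun a ha => ?_
  have h0 : r a ≠ 0 := Finsupp.mem_support_iff.1 ha
  obtain ⟨⟨x, -, hx⟩, -⟩ := h.1 a h0
  rw [hx]
  exact Dvd.dvd.mul_left (Dvd.intro _ rfl) _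

theorem rep_image {A M : Set ℕ} {b k : ℕ} (hb : 0 < b) :
    {r | Rep {c | ∃ a ∈ A, c = b * a} M (b * k) r}
      = (Finsupp.mapDomain (fun a => b * a) : (ℕ →₀ ℕ) → (ℕ →₀ ℕ)) '' {r | Rep A M k r} := by
  have hinj : Function.Injective (fun a : ℕ => b * a) := fun x y h => Nat.eq_of_mul_eq_mul_left hb h
  have hsum : ∀ r : ℕ →₀ ℕ, (Finsupp.mapDomain (fun a => b * a) r).sum (fun a k => k * a)
      = b * r.sum (fun a k => k * a) := by
    intro r
    rw [Finsupp.sum_mapDomain_index_inj hinj, Finsupp.sum, Finsupp.sum, Finset.mul_sum]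
    exact Finset.sum_congr rfl fun a _ => by ring
  ext r
  constructor
  · intro h
    refine ⟨Finsupp.comapDomain (fun a => b * a) r hinj.injOn, ?_, ?_⟩
    · have hmap : Finsupp.mapDomain (fun a => b * a)
          (Finsupp.comapDomain (fun a => b * a) r hinj.injOn) = r := by
        refine Finsupp.mapDomain_comapDomain _ hinj r fun c hc => ?_
        obtain ⟨⟨x, -, hx⟩, -⟩ := h.1 c (Finsupp.mem_support_iff.1 hc)
        exact ⟨x, hx.symm⟩
      constructor
      · intro a ha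
        rw [Finsupp.comapDomain_apply] at ha ⊢
        obtain ⟨⟨x, hx, hx'⟩, hM⟩ := h.1 _ ha
        exact ⟨(hinj hx' : a = x) ▸ hx, hM⟩
      · have h2 := h.2
        rw [← hmap, hsum] at h2
        exact Nat.eq_of_mul_eq_mul_left hb h2
    · refine Finsupp.mapDomain_comapDomain _ hinj r fun c hc => ?_
      obtain ⟨⟨x, -, hx⟩, -⟩ := h.1 c (Finsupp.mem_support_iff.1 hc)
      exact ⟨x, hx.symm⟩
  · rintro ⟨s, hs, rfl⟩
    constructor
    · intro c hc
      by_cases hr : c ∈ Set.range (fun a : ℕ => b * a)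
      · obtain ⟨a, rfl⟩ := hr
        rw [Finsupp.mapDomain_apply hinj] at hc ⊢
        obtain ⟨h1, h2⟩ := hs.1 a hc
        exact ⟨⟨a, h1, rfl⟩, h2⟩
      · exact absurd (Finsupp.mapDomain_of_notMem_range _ _ hr) hc
    · rw [hsum, hs.2]

theorem pf_SC (hRB : T_RB) : T_SC := by
  intro A M b n hb hA
  have hA' : ∀ a ∈ {c | ∃ a ∈ A, c = b * a}, 0 < a := by
    rintro c ⟨a, ha, rfl⟩
    exact Nat.mul_pos hb (hA a ha)
  rw [(hRB _ M n hA').2]
  split_ifs with h
  · obtain ⟨k, rfl⟩ := h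
    rw [rep_image hb, Nat.mul_div_cancel_left _ hb, (hRB A M k hA).2]
    refine Set.ncard_image_of_injective _ ?_
    exact Finsupp.mapDomain_injective fun x y h => Nat.eq_of_mul_eq_mul_left hb h
  · rw [Set.ncard_eq_zero (hRB _ M n hA').1]
    ext r
    simp only [Set.mem_ofPred_eq, Set.mem_empty_iff_false, iff_false]
    exact fun hr => h (rep_dvd hr)

end Pool.Agent.H78.PG
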