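import Pool.Agent.H25.PG.Targets

/-!
# Board pg_modules, row U: unique representations
-/

set_option autoImplicit false

open Finset

namespace Pool.Agent.H78.PG

open Pool.Agent.H55.PM Pool.Agent.H25.PG

theorem dg_ext (hD3 : T_D3) {g x y : ℕ} (hg : 2 ≤ g) (h : ∀ j, dg g j x = dg g j y) : x = y := by
  have hx : x < g ^ (x + y) := lt_of_lt_of_le (Nat.lt_pow_self (by omega : 1 < g))
    (Nat.pow_le_pow_right (by omega) (Nat.le_add_right x y))
  have hy : y < g ^ (x + y) := lt_of_lt_of_le (Nat.lt_pow_self (by omega : 1 < g))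
    (Nat.pow_le_pow_right (by omega) (Nat.le_add_left y x))
  rw [← hD3 g (x + y) x hg hx]
  conv_rhs => rw [← hD3 g (x + y) y hg hy]
  exact Finset.sum_congr rfl fun j _ => by rw [h j]

theorem dg_zero_of_lt {g K n j : ℕ} (hg : 2 ≤ g) (hn : n < g ^ K) (hj : K ≤ j) : dg g j n = 0 := by
  unfold dg
  rw [Nat.div_eq_of_lt (lt_of_lt_of_le hn (Nat.pow_le_pow_right (by omega) hj)), Nat.zero_mod]

theorem dg_nil (g j : ℕ) : dg g j 0 = 0 := by
  unfold dg
  rw [Nat.zero_div, Nat.zero_mod]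

/-- the digits of a sum of shifted numbers with digits in `F` -/
theorem digits (hD2 : T_D2) (hD4 : T_D4) {g : ℕ} {E F : Set ℕ} (hg : 2 ≤ g)
    (hEF : ∀ e ∈ E, ∀ e' ∈ E, ∀ f ∈ F, ∀ f' ∈ F, e + f = e' + f' → e = e') (x : ℕ → ℕ)
    (hx : ∀ e ∈ E, x e ∈ DS g F) (S : Finset ℕ) (hS : ∀ e ∈ S, e ∈ E) :
    (∀ e ∈ S, ∀ f ∈ F, dg g (e + f) (∑ e ∈ S, g ^ e * x e) = dg g f (x e)) ∧
      (∀ j, (∀ e ∈ S, ∀ f ∈ F, e + f ≠ j) → dg g j (∑ e ∈ S, g ^ e * x e) = 0) := by
  classical
  induction S using Finset.induction_on with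
  | empty =>
    refine ⟨fun e he => absurd he (Finset.notMem_empty e), fun j _ => ?_⟩
    rw [Finset.sum_empty]
    exact dg_nil g j
  | insert e0 S he0 ih =>
    have hSE : ∀ e ∈ S, e ∈ E := fun e he => hS e (Finset.mem_insert_of_mem he)
    have he0E : e0 ∈ E := hS e0 (Finset.mem_insert_self e0 S)
    obtain ⟨iha, ihb⟩ := ih hSE
    -- the digits of the new term
    have hnew : ∀ j, (∀ f ∈ F, e0 + f ≠ j) → dg g j (g ^ e0 * x e0) = 0 := by
      intro j hj
      rw [hD4 g e0 (x e0) j hg]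
      split_ifs with h
      · rfl
      · exact hx e0 he0E (j - e0) fun hf => hj _ hf (by omega)
    have hold : ∀ f ∈ F, dg g (e0 + f) (∑ e ∈ S, g ^ e * x e) = 0 := by
      intro f hf
      refine ihb (e0 + f) fun e he f' hf' h => ?_
      have := hEF e (hSE e he) e0 he0E f' hf' f hf h
      exact he0 (this ▸ he)
    have hadd : ∀ j, dg g j (g ^ e0 * x e0 + ∑ e ∈ S, g ^ e * x e)
        = dg g j (g ^ e0 * x e0) + dg g j (∑ e ∈ S, g ^ e * x e) := by
      refine hD2 g _ _ hg fun j => ?_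
      by_cases h : ∀ f ∈ F, e0 + f ≠ j
      · exact Or.inl (hnew j h)
      · push Not at h
        obtain ⟨f, hf, rfl⟩ := h
        exact Or.inr (hold f hf)
    rw [Finset.sum_insert he0]
    constructor
    · intro e he f hf
      rw [hadd]
      rcases Finset.mem_insert.1 he with rfl | he
      · rw [hold f hf, add_zero, hD4 g e (x e) (e + f) hg, if_neg (by omega), Nat.add_sub_cancel_left]
      · rw [iha e he f hf, hnew (e + f) ?_, zero_add]
        intro f' hf' h
        have := hEF e0 he0E e (hSE e he) f' hf' f hf h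
        exact he0 (this ▸ he)
    · intro j hj
      rw [hadd, hnew j (fun f hf => hj e0 (Finset.mem_insert_self e0 S) f hf),
        ihb j fun e he => hj e (Finset.mem_insert_of_mem he)]

/-- the structure of a representation -/
theorem struct (hD2 : T_D2) (hD4 : T_D4) {g : ℕ} {E F : Set ℕ} (hg : 2 ≤ g)
    (hEF : ∀ e ∈ E, ∀ e' ∈ E, ∀ f ∈ F, ∀ f' ∈ F, e + f = e' + f' → e = e') {n : ℕ}
    {r : ℕ →₀ ℕ} (hr : Rep (PA g E) (PM g F) n r) :
    (∀ e ∈ E, ∀ f ∈ F, dg g (e + f) n = dg g f (r (g ^ e))) ∧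
      (∀ e ∈ E, r (g ^ e) ∈ DS g F) ∧ n ∈ DS g (SS E F) := by
  classical
  have hlog : ∀ e, Nat.log g (g ^ e) = e := fun e => Nat.log_pow (by omega) e
  have hx : ∀ e ∈ E, r (g ^ e) ∈ DS g F := by
    intro e _
    by_cases h : r (g ^ e) = 0
    · rw [h]
      exact fun j _ => dg_nil g j
    · exact (hr.1 _ h).2.2
  -- the exponents of the parts
  have hsup : ∀ a ∈ r.support, ∃ e ∈ E, a = g ^ e := fun a ha =>
    (hr.1 a (Finsupp.mem_support_iff.1 ha)).1
  have hSE : ∀ e ∈ r.support.image (Nat.log g), e ∈ E := by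
    intro e he
    obtain ⟨a, ha, rfl⟩ := Finset.mem_image.1 he
    obtain ⟨e', he', rfl⟩ := hsup a ha
    rw [hlog]
    exact he'
  have hsum : ∑ e ∈ r.support.image (Nat.log g), g ^ e * r (g ^ e) = n := by
    rw [Finset.sum_image, ← hr.2, Finsupp.sum]
    · refine Finset.sum_congr rfl fun a ha => ?_
      obtain ⟨e', -, rfl⟩ := hsup a ha
      rw [hlog, mul_comm]
    · intro a ha b hb hab
      obtain ⟨e, -, rfl⟩ := hsup a ha
      obtain ⟨e', -, rfl⟩ := hsup b hb
      rw [hlog, hlog] at hab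
      rw [hab]
  refine ⟨?_, hx, ?_⟩
  · intro e he f hf
    have hS' : ∀ e' ∈ insert e (r.support.image (Nat.log g)), e' ∈ E := by
      intro e' he'
      rcases Finset.mem_insert.1 he' with rfl | h
      · exact he
      · exact hSE e' h
    have hsum' : ∑ e' ∈ insert e (r.support.image (Nat.log g)), g ^ e' * r (g ^ e') = n := by
      by_cases hmem : e ∈ r.support.image (Nat.log g)
      · rw [Finset.insert_eq_of_mem hmem, hsum]
      · rw [Finset.sum_insert hmem, hsum]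
        have h0 : r (g ^ e) = 0 := by
          by_contra h0
          exact hmem (Finset.mem_image.2 ⟨g ^ e, Finsupp.mem_support_iff.2 h0, hlog e⟩)
        rw [h0, mul_zero, zero_add]
    have h := (digits hD2 hD4 hg hEF (fun e => r (g ^ e)) hx _ hS').1 e
      (Finset.mem_insert_self _ _) f hf
    rw [hsum'] at h
    exact h
  · intro j hj
    have h := (digits hD2 hD4 hg hEF (fun e => r (g ^ e)) hx _ hSE).2 j
      (fun e he f hf hef => hj ⟨e, hSE e he, f, hf, hef⟩)
    rw [hsum] at h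
    exact h

theorem unique (hD2 : T_D2) (hD3 : T_D3) (hD4 : T_D4) {g : ℕ} {E F : Set ℕ} (hg : 2 ≤ g)
    (hEF : ∀ e ∈ E, ∀ e' ∈ E, ∀ f ∈ F, ∀ f' ∈ F, e + f = e' + f' → e = e') {n : ℕ}
    {r s : ℕ →₀ ℕ} (hr : Rep (PA g E) (PM g F) n r) (hs : Rep (PA g E) (PM g F) n s) : r = s := by
  obtain ⟨r1, r2, -⟩ := struct hD2 hD4 hg hEF hr
  obtain ⟨s1, s2, -⟩ := struct hD2 hD4 hg hEF hs
  ext a
  by_cases ha : a ∈ PA g E
  · obtain ⟨e, he, rfl⟩ := ha
    refine dg_ext hD3 hg fun j => ?_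
    by_cases hj : j ∈ F
    · rw [← r1 e he j hj, ← s1 e he j hj]
    · rw [r2 e he j hj, s2 e he j hj]
  · have h1 : r a = 0 := by
      by_contra h
      exact ha (hr.1 a h).1
    have h2 : s a = 0 := by
      by_contra h
      exact ha (hs.1 a h).1
    rw [h1, h2]

theorem exist (hD1 : T_D1) (hD2 : T_D2) (hD3 : T_D3) (hD4 : T_D4) {g : ℕ} {E F : Set ℕ}
    (hg : 2 ≤ g)
    (hEF : ∀ e ∈ E, ∀ e' ∈ E, ∀ f ∈ F, ∀ f' ∈ F, e + f = e' + f' → e = e') {n : ℕ}
    (hn : n ∈ DS g (SS E F)) : ∃ r, Rep (PA g E) (PM g F) n r := by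
  classical
  have hnK : n < g ^ (n + 1) := lt_of_lt_of_le (Nat.lt_pow_self (by omega : 1 < g))
    (Nat.pow_le_pow_right (by omega) (Nat.le_succ n))
  set K := n + 1 with hK
  have hlt : ∀ e f, (if f ∈ F then dg g (e + f) n else 0) < g := by
    intro e f
    split_ifs
    · exact Nat.mod_lt _ (by omega)
    · omega
  set c : ℕ → ℕ := fun e => ∑ f ∈ range K, (if f ∈ F then dg g (e + f) n else 0) * g ^ f with hc
  have hcd : ∀ e j, dg g j (c e) = if j < K then (if j ∈ F then dg g (e + j) n else 0) else 0 :=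
    fun e j => hD1 g (fun f => if f ∈ F then dg g (e + f) n else 0) K j hg (hlt e)
  have hcF : ∀ e, c e ∈ DS g F := by
    intro e j hj
    rw [hcd]
    split_ifs <;> rfl
  set S : Finset ℕ := (range K).filter (fun e => e ∈ E) with hSdef
  have hSE : ∀ e ∈ S, e ∈ E := fun e he => (Finset.mem_filter.1 he).2
  obtain ⟨ha, hb⟩ := digits hD2 hD4 hg hEF c (fun e _ => hcF e) S hSE
  have hX : ∑ e ∈ S, g ^ e * c e = n := by
    refine dg_ext hD3 hg fun j => ?_
    by_cases hj : ∃ e ∈ S, ∃ f ∈ F, e + f = j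
    · obtain ⟨e, he, f, hf, rfl⟩ := hj
      rw [ha e he f hf, hcd]
      split_ifs with h1
      · rfl
      · exact (dg_zero_of_lt hg hnK (by omega)).symm
    · push Not at hj
      rw [hb j hj]
      by_cases hj' : j ∈ SS E F
      · obtain ⟨e, he, f, hf, rfl⟩ := hj'
        have heK : K ≤ e := by
          by_contra h
          exact hj e (Finset.mem_filter.2 ⟨Finset.mem_range.2 (by omega), he⟩) f hf rfl
        exact (dg_zero_of_lt hg hnK (by omega)).symm
      · exact (hn j hj').symm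
  have hinj : Function.Injective (fun e : ℕ => g ^ e) := Nat.pow_right_injective hg
  refine ⟨Finsupp.mapDomain (fun e => g ^ e)
    (Finsupp.onFinset S (fun e => if e ∈ S then c e else 0) ?_), ?_, ?_⟩
  · intro e he
    by_contra h
    exact he (if_neg h)
  · intro a ha'
    by_cases hr : a ∈ Set.range (fun e : ℕ => g ^ e)
    · obtain ⟨e, rfl⟩ := hr
      rw [Finsupp.mapDomain_apply hinj, Finsupp.onFinset_apply] at ha' ⊢
      by_cases heS : e ∈ S
      · rw [if_pos heS] at ha' ⊢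
        exact ⟨⟨e, hSE e heS, rfl⟩, Nat.pos_of_ne_zero ha', hcF e⟩
      · exact absurd (if_neg heS) ha'
    · exact absurd (Finsupp.mapDomain_of_notMem_range _ _ hr) ha'
  · rw [Finsupp.sum_mapDomain_index_inj hinj]
    refine (Finsupp.onFinset_sum (g := fun a b => b * g ^ a) _ (fun a => Nat.zero_mul _)).trans ?_
    rw [← hX]
    refine Finset.sum_congr rfl fun e he => ?_
    rw [if_pos he, mul_comm]

theorem pf_U (hRB : T_RB) (hD1 : T_D1) (hD2 : T_D2) (hD3 : T_D3) (hD4 : T_D4) : T_U := by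
  classical
  intro g E F hg hEF n
  have hA : ∀ a ∈ PA g E, 0 < a := by
    rintro a ⟨e, -, rfl⟩
    exact Nat.pow_pos (by omega)
  rw [(hRB _ _ n hA).2]
  split_ifs with h
  · obtain ⟨r, hr⟩ := exist hD1 hD2 hD3 hD4 hg hEF h
    rw [Set.ncard_eq_one]
    exact ⟨r, Set.eq_singleton_iff_unique_mem.2
      ⟨hr, fun s hs => unique hD2 hD3 hD4 hg hEF hs hr⟩⟩
  · rw [Set.ncard_eq_zero (hRB _ _ n hA).1]
    ext r
    simp only [Set.mem_ofPred_eq, Set.mem_empty_iff_false, iff_false]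
    exact fun hr => h (struct hD2 hD4 hg hEF hr).2.2

end Pool.Agent.H78.PG
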